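import Pool.Agent.D0H99.OD.Stm6

/-!
Module A4 of project OD, part 6 (helper99): almost all monic polynomials have many prime factors of
large degree (Turan).

Author: helper6.
-/

set_option autoImplicit false

open Polynomial

namespace Pool.Agent.D0H6.OD

open Finset Filter
open Pool.Agent.D0H99.OD (MO PD S_A0 S_A4)
open Pool.Agent.Y164.PS (Pr mem_Pr card_Pr_ge)
open Pool.Agent.H341R2.Sharp (Irr mem_Irr)

open Classical in
/-- the number of the multiples -/
theorem card_mult (hA0 : S_A0) {k : Type} [Field k] [Fintype k] {D : ℕ} {E : k[X]}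
    (hE : E.Monic) (hED : E.natDegree ≤ D) :
    (((MO k D).filter fun f => E ∣ f).card : ℝ) =
      (Fintype.card k : ℝ) ^ D * ((Fintype.card k : ℝ) ^ E.natDegree)⁻¹ := by
  have hq0 : (Fintype.card k : ℝ) ≠ 0 := by
    have : 0 < Fintype.card k := Fintype.card_pos
    exact_mod_cast this.ne'
  have h1 := (hA0 k D).2.2 E hE
  rw [if_pos hED] at h1
  rw [h1, Nat.cast_pow, pow_sub₀ _ hq0 hED]

open Classical in
/-- the variance of the number of the prime factors in a set of primes -/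
theorem var_le (hA0 : S_A0) {k : Type} [Field k] [Fintype k] (S : Finset k[X]) (y D : ℕ)
    (hS : ∀ P ∈ S, P.Monic ∧ Irreducible P ∧ P.natDegree ≤ y) (hD : 2 * y ≤ D) :
    ∑ f ∈ MO k D, ((∑ P ∈ S, if P ∣ f then (1 : ℝ) else 0) -
        ∑ P ∈ S, ((Fintype.card k : ℝ) ^ P.natDegree)⁻¹) ^ 2 ≤
      (Fintype.card k : ℝ) ^ D * ∑ P ∈ S, ((Fintype.card k : ℝ) ^ P.natDegree)⁻¹ := by
  set q : ℝ := (Fintype.card k : ℝ) with hq
  set w : k[X] → ℝ := fun P => (q ^ P.natDegree)⁻¹ with hw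
  set μ : ℝ := ∑ P ∈ S, w P with hμ
  set Xf : k[X] → ℝ := fun f => ∑ P ∈ S, if P ∣ f then (1 : ℝ) else 0 with hXf
  have hqpos : 0 < q := by
    have : 0 < Fintype.card k := Fintype.card_pos
    rw [hq]
    exact_mod_cast this
  have hw0 : ∀ P, 0 ≤ w P := fun P => by positivity
  have hcard : ((MO k D).card : ℝ) = q ^ D := by
    rw [(hA0 k D).2.1, Nat.cast_pow]
  have hone : ∀ P ∈ S, ∑ f ∈ MO k D, (if P ∣ f then (1 : ℝ) else 0) = q ^ D * w P := by
    intro P hP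
    rw [Finset.sum_boole]
    exact card_mult hA0 (hS P hP).1 ((hS P hP).2.2.trans (by omega))
  have hX1 : ∑ f ∈ MO k D, Xf f = q ^ D * μ := by
    rw [hXf, Finset.sum_comm, hμ, Finset.mul_sum]
    exact Finset.sum_congr rfl hone
  have hpair : ∀ P ∈ S, ∀ P' ∈ S, ∑ f ∈ MO k D,
      ((if P ∣ f then (1 : ℝ) else 0) * (if P' ∣ f then (1 : ℝ) else 0)) ≤
      q ^ D * (w P * w P') + if P = P' then q ^ D * w P else 0 := by
    intro P hP P' hP'
    by_cases hne : P = P'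
    · subst hne
      rw [if_pos rfl]
      have h1 : ∀ f : k[X], (if P ∣ f then (1 : ℝ) else 0) * (if P ∣ f then (1 : ℝ) else 0) =
          if P ∣ f then (1 : ℝ) else 0 := by
        intro f
        split_ifs <;> simp
      rw [Finset.sum_congr rfl fun f _ => h1 f, hone P hP]
      have h2 : 0 ≤ q ^ D * (w P * w P) := by
        have := hw0 P
        positivity
      linarith
    · rw [if_neg hne, add_zero]
      have hcop : IsCoprime P P' := by
        rw [(hS P hP).2.1.coprime_iff_not_dvd]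
        intro hd
        exact hne (Polynomial.eq_of_monic_of_associated (hS P hP).1 (hS P' hP').1
          ((hS P hP).2.1.associated_of_dvd (hS P' hP').2.1 hd))
      have h1 : ∀ f : k[X], (if P ∣ f then (1 : ℝ) else 0) * (if P' ∣ f then (1 : ℝ) else 0) =
          if P * P' ∣ f then (1 : ℝ) else 0 := by
        intro f
        by_cases h3 : P ∣ f
        · by_cases h4 : P' ∣ f
          · rw [if_pos h3, if_pos h4, if_pos (hcop.mul_dvd h3 h4), one_mul]
          · rw [if_neg h4, if_neg (fun h => h4 (dvd_of_mul_left_dvd h)), mul_zero]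
        · rw [if_neg h3, if_neg (fun h => h3 (dvd_of_mul_right_dvd h)), zero_mul]
      rw [Finset.sum_congr rfl fun f _ => h1 f, Finset.sum_boole]
      have hdeg : (P * P').natDegree = P.natDegree + P'.natDegree :=
        (hS P hP).1.natDegree_mul (hS P' hP').1
      have h5 := (hS P hP).2.2
      have h6 := (hS P' hP').2.2
      rw [card_mult hA0 ((hS P hP).1.mul (hS P' hP').1) (by rw [hdeg]; omega), hdeg, pow_add,
        mul_inv]
  have hX2 : ∑ f ∈ MO k D, Xf f ^ 2 ≤ q ^ D * (μ ^ 2 + μ) := by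
    have h1 : ∀ f, Xf f ^ 2 = ∑ P ∈ S, ∑ P' ∈ S,
        ((if P ∣ f then (1 : ℝ) else 0) * (if P' ∣ f then (1 : ℝ) else 0)) := by
      intro f
      rw [sq, hXf]
      exact Finset.sum_mul_sum _ _ _ _
    rw [Finset.sum_congr rfl fun f _ => h1 f, Finset.sum_comm]
    have h2 : ∀ P ∈ S, ∑ f ∈ MO k D, ∑ P' ∈ S,
        ((if P ∣ f then (1 : ℝ) else 0) * (if P' ∣ f then (1 : ℝ) else 0)) ≤
        q ^ D * (w P * μ) + q ^ D * w P := by
      intro P hP
      rw [Finset.sum_comm]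
      calc _ ≤ ∑ P' ∈ S, (q ^ D * (w P * w P') + if P = P' then q ^ D * w P else 0) :=
            Finset.sum_le_sum fun P' hP' => hpair P hP P' hP'
        _ = q ^ D * (w P * μ) + q ^ D * w P := by
            rw [Finset.sum_add_distrib, Finset.sum_ite_eq, if_pos hP, ← Finset.mul_sum,
              ← Finset.mul_sum]
    calc _ ≤ ∑ P ∈ S, (q ^ D * (w P * μ) + q ^ D * w P) := Finset.sum_le_sum h2
      _ = q ^ D * (μ ^ 2 + μ) := by
          rw [Finset.sum_add_distrib, ← Finset.mul_sum, ← Finset.mul_sum, ← Finset.sum_mul]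
          ring
  have h3 : ∑ f ∈ MO k D, (Xf f - μ) ^ 2 = ∑ f ∈ MO k D, Xf f ^ 2 -
      2 * μ * ∑ f ∈ MO k D, Xf f + ((MO k D).card : ℝ) * μ ^ 2 := by
    have h4 : ∀ f, (Xf f - μ) ^ 2 = Xf f ^ 2 - 2 * μ * Xf f + μ ^ 2 := fun f => by ring
    rw [Finset.sum_congr rfl fun f _ => h4 f, Finset.sum_add_distrib, Finset.sum_sub_distrib,
      ← Finset.mul_sum, Finset.sum_const, nsmul_eq_mul]
  change ∑ f ∈ MO k D, (Xf f - μ) ^ 2 ≤ q ^ D * μ
  rw [h3, hX1, hcard]
  nlinarith [hX2]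

/-- the primes of degree `n` have density about `1 / n` -/
theorem dens_ge {k : Type} [Field k] [Fintype k] [DecidableEq k] (hk : ringChar k ≠ 2) {n : ℕ}
    (hn : 4 ≤ n) : 1 / (2 * (n : ℝ)) ≤ ((Pr k n).card : ℝ) * ((Fintype.card k : ℝ) ^ n)⁻¹ := by
  have h1 := card_Pr_ge (k := k) hk n (by omega)
  set q : ℝ := (Fintype.card k : ℝ) with hq
  have hq2 : (2 : ℝ) ≤ q := by
    have : 1 < Fintype.card k := Fintype.one_lt_card
    rw [hq]
    exact_mod_cast this
  have hs : (Real.sqrt q) ^ n * (Real.sqrt q) ^ n = q ^ n := by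
    rw [← mul_pow, Real.mul_self_sqrt (by linarith)]
  have hs1 : (1 : ℝ) ≤ Real.sqrt q := by
    rw [Real.one_le_sqrt]
    linarith
  have hs4 : (4 : ℝ) ≤ (Real.sqrt q) ^ n := by
    have h2 : (Real.sqrt q) ^ 4 ≤ (Real.sqrt q) ^ n := pow_le_pow_right₀ hs1 hn
    have h3 : (Real.sqrt q) ^ 4 = q ^ 2 := by
      rw [show (4 : ℕ) = 2 * 2 from rfl, pow_mul, Real.sq_sqrt (by linarith)]
    nlinarith
  have hn0 : (0 : ℝ) < n := by
    have : 0 < n := by omega
    exact_mod_cast this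
  have hqn : 0 < q ^ n := by positivity
  have h5 : q ^ n / 2 ≤ (n : ℝ) * (Pr k n).card := by nlinarith
  rw [← div_eq_mul_inv, div_le_div_iff₀ (by positivity) hqn]
  nlinarith

/-- the sum of the densities is unbounded -/
theorem mu_large {k : Type} [Field k] [Fintype k] [DecidableEq k] (hk : ringChar k ≠ 2) (n0 : ℕ)
    (M : ℝ) : ∃ y : ℕ, M ≤ ∑ n ∈ Ico (n0 + 1) (y + 1),
      ((Pr k n).card : ℝ) * ((Fintype.card k : ℝ) ^ n)⁻¹ := by
  have h1 := Real.tendsto_sum_range_one_div_nat_succ_atTop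
  set n1 : ℕ := n0 + 3 with hn1
  obtain ⟨N, hN1, hN2⟩ := ((h1.eventually_ge_atTop (2 * M + n1)).and
    (eventually_ge_atTop n1)).exists
  refine ⟨N, ?_⟩
  have h2 : ∑ i ∈ range n1, 1 / ((i : ℝ) + 1) ≤ n1 := by
    calc ∑ i ∈ range n1, 1 / ((i : ℝ) + 1) ≤ ∑ i ∈ range n1, (1 : ℝ) := by
          refine Finset.sum_le_sum fun i _ => ?_
          rw [div_le_one (by positivity)]
          have : (0 : ℝ) ≤ i := Nat.cast_nonneg i
          linarith
      _ = n1 := by simp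
  have h3 := Finset.sum_range_add_sum_Ico (fun i : ℕ => 1 / ((i : ℝ) + 1)) hN2
  have h4 : 2 * M ≤ ∑ i ∈ Ico n1 N, 1 / ((i : ℝ) + 1) := by linarith
  have h5 : ∑ i ∈ Ico n1 N, 1 / (2 * ((i + 1 : ℕ) : ℝ)) ≤ ∑ i ∈ Ico n1 N,
      ((Pr k (i + 1)).card : ℝ) * ((Fintype.card k : ℝ) ^ (i + 1))⁻¹ := by
    refine Finset.sum_le_sum fun i hi => dens_ge hk ?_
    have := (Finset.mem_Ico.1 hi).1
    omega
  have h6 : ∑ i ∈ Ico n1 N, 1 / (2 * ((i + 1 : ℕ) : ℝ)) =
      1 / 2 * ∑ i ∈ Ico n1 N, 1 / ((i : ℝ) + 1) := by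
    rw [Finset.mul_sum]
    refine Finset.sum_congr rfl fun i _ => ?_
    push_cast
    field_simp
  have h7 : ∑ i ∈ Ico n1 N, ((Pr k (i + 1)).card : ℝ) * ((Fintype.card k : ℝ) ^ (i + 1))⁻¹ =
      ∑ n ∈ Ico (n1 + 1) (N + 1), ((Pr k n).card : ℝ) * ((Fintype.card k : ℝ) ^ n)⁻¹ :=
    Finset.sum_Ico_add' (fun n => ((Pr k n).card : ℝ) * ((Fintype.card k : ℝ) ^ n)⁻¹) n1 N 1
  have h8 : ∑ n ∈ Ico (n1 + 1) (N + 1), ((Pr k n).card : ℝ) * ((Fintype.card k : ℝ) ^ n)⁻¹ ≤
      ∑ n ∈ Ico (n0 + 1) (N + 1), ((Pr k n).card : ℝ) * ((Fintype.card k : ℝ) ^ n)⁻¹ := by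
    refine Finset.sum_le_sum_of_subset_of_nonneg ?_ fun _ _ _ => by positivity
    intro x hx
    rw [Finset.mem_Ico] at hx ⊢
    omega
  linarith

/-- Module A4. -/
theorem t_A4 : S_A0 → S_A4 := by
  intro hA0 k _ _ hk n0 R η hη
  classical
  obtain ⟨y, hy⟩ := mu_large (k := k) hk n0 (2 * R + 4 / η + 1)
  refine ⟨2 * y, fun D hD => ?_⟩
  set q : ℝ := (Fintype.card k : ℝ) with hq
  have hqpos : 0 < q := by
    have : 0 < Fintype.card k := Fintype.card_pos
    rw [hq]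
    exact_mod_cast this
  set S : Finset k[X] := (Irr k y).filter (fun P => n0 < P.natDegree) with hS
  have hSmem : ∀ P, P ∈ S ↔ P.Monic ∧ Irreducible P ∧ n0 < P.natDegree ∧ P.natDegree ≤ y := by
    intro P
    rw [hS, mem_filter, mem_Irr]
    tauto
  have hμ : ∑ P ∈ S, (q ^ P.natDegree)⁻¹ = ∑ n ∈ Ico (n0 + 1) (y + 1),
      ((Pr k n).card : ℝ) * (q ^ n)⁻¹ := by
    rw [← Finset.sum_fiberwise_of_maps_to (s := S) (t := Ico (n0 + 1) (y + 1))
      (g := fun P : k[X] => P.natDegree)]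
    · refine Finset.sum_congr rfl fun n hn => ?_
      have h1 : S.filter (fun P => P.natDegree = n) = Pr k n := by
        ext P
        rw [mem_filter, hSmem, mem_Pr]
        rw [Finset.mem_Ico] at hn
        constructor
        · rintro ⟨⟨h1, h2, _, _⟩, h3⟩
          exact ⟨h1, h2, h3⟩
        · rintro ⟨h1, h2, h3⟩
          exact ⟨⟨h1, h2, by omega, by omega⟩, h3⟩
      rw [h1, Finset.sum_congr rfl fun P hP => by rw [(mem_Pr.1 hP).2.2], Finset.sum_const,
        nsmul_eq_mul]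
    · intro P hP
      rw [hSmem] at hP
      rw [Finset.mem_Ico]
      omega
  set μ : ℝ := ∑ P ∈ S, (q ^ P.natDegree)⁻¹ with hμd
  rw [← hμ] at hy
  have hvar := var_le hA0 S y D (fun P hP => by
    rw [hSmem] at hP
    exact ⟨hP.1, hP.2.1, hP.2.2.2⟩) hD
  rw [← hq, ← hμd] at hvar
  have hη4 : 0 < 4 / η := by positivity
  have hR0 : (0 : ℝ) ≤ R := Nat.cast_nonneg R
  -- the polynomials with few prime factors
  set B : Finset k[X] := (MO k D).filter
    (fun f => (∑ P ∈ S, if P ∣ f then (1 : ℝ) else 0) < R) with hB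
  have hsub : {f ∈ (MO k D : Set k[X]) | {P ∈ PD f | n0 < P.natDegree}.ncard < R} ⊆
      (B : Set k[X]) := by
    rintro f ⟨hf, hf2⟩
    have hf' : f ∈ MO k D := hf
    rw [Finset.mem_coe, hB, mem_filter]
    refine ⟨hf', ?_⟩
    obtain ⟨hfm, hfd⟩ := ((hA0 k D).1 f).1 hf'
    have hfin : {P ∈ PD f | n0 < P.natDegree}.Finite := by
      refine (Finset.finite_toSet (Irr k D)).subset ?_
      rintro P ⟨⟨h1, h2, h3⟩, _⟩
      rw [Finset.mem_coe, mem_Irr]
      exact ⟨h1, h2, hfd ▸ Polynomial.natDegree_le_of_dvd h3 hfm.ne_zero⟩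
    rw [Finset.sum_boole]
    have h4 : (S.filter (fun P => P ∣ f)).card ≤ {P ∈ PD f | n0 < P.natDegree}.ncard := by
      rw [← Set.ncard_coe_finset]
      refine Set.ncard_le_ncard ?_ hfin
      intro P hP
      rw [Finset.mem_coe, mem_filter, hSmem] at hP
      exact ⟨⟨hP.1.1, hP.1.2.1, hP.2⟩, hP.1.2.2.1⟩
    exact_mod_cast h4.trans_lt hf2
  have h1 : ({f ∈ (MO k D : Set k[X]) | {P ∈ PD f | n0 < P.natDegree}.ncard < R}.ncard : ℝ) ≤
      (B.card : ℝ) := by
    have h2 := Set.ncard_le_ncard hsub (Finset.finite_toSet B)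
    rw [Set.ncard_coe_finset] at h2
    exact_mod_cast h2
  refine h1.trans ?_
  have h2 : (B.card : ℝ) * (μ / 2) ^ 2 ≤ q ^ D * μ := by
    calc (B.card : ℝ) * (μ / 2) ^ 2 = ∑ f ∈ B, (μ / 2) ^ 2 := by
          rw [Finset.sum_const, nsmul_eq_mul]
      _ ≤ ∑ f ∈ B, ((∑ P ∈ S, if P ∣ f then (1 : ℝ) else 0) - μ) ^ 2 := by
          refine Finset.sum_le_sum fun f hf => ?_
          rw [hB, mem_filter] at hf
          have h3 := hf.2
          nlinarith
      _ ≤ ∑ f ∈ MO k D, ((∑ P ∈ S, if P ∣ f then (1 : ℝ) else 0) - μ) ^ 2 := by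
          refine Finset.sum_le_sum_of_subset_of_nonneg (Finset.filter_subset _ _)
            fun _ _ _ => sq_nonneg _
      _ ≤ q ^ D * μ := hvar
  have hμ0 : 0 < μ := by linarith
  have hμη : 4 / η ≤ μ := by linarith
  have h5 : (B.card : ℝ) * μ ≤ 4 * q ^ D := by
    have h6 : ((B.card : ℝ) * μ) * μ ≤ (4 * q ^ D) * μ := by nlinarith
    exact le_of_mul_le_mul_right h6 hμ0
  have h7 : 4 ≤ η * μ := by
    rw [div_le_iff₀ hη] at hμη
    linarith
  have hqD : 0 < q ^ D := by positivity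
  have h8 : (B.card : ℝ) * μ ≤ (η * q ^ D) * μ := by nlinarith
  exact le_of_mul_le_mul_right h8 hμ0

end Pool.Agent.D0H6.OD
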