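import Pool.Agent.D0H99.OD.Stm3
import Pool.Agent.D0H52.OD.Mom2

/-!
Module CT of project OD, part 3 (helper99): counting by duality.

Author: helper6.
-/

set_option autoImplicit false

namespace Pool.Agent.D0H6.OD

open Finset Pool.Agent.D0H99.RM Pool.Agent.D0H99.OD
open Pool.Agent.D0H52.RM (Lam card_ker card_V)
open Pool.Agent.D0H52.OD.Mom2 (coef_p coef_B tB)

local instance : Fact (Nat.Prime 2) := ⟨Nat.prime_two⟩

/-- the indices of the equations -/
abbrev Ix (C : Type) (k r : ℕ) : Type := C × (Fin k × (Fin r × Fin 2))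

/-- the data -/
abbrev Zz (C : Type) (r : ℕ) : Type := Bm r × (C → Fin r → V 2 2)

section
variable {C : Type} [Fintype C] {k r : ℕ}

/-- the systems with `δ = 0` for all vectors, as a linear map of the data -/
noncomputable def LM (a : Fin r → Wk C k) : Zz C r →ₗ[ZMod 2] (Ix C k r → ZMod 2) where
  toFun z := fun q => Lam (fun _ : Fin r => (1 : ZMod 2)) (fun x => a x q.1 q.2.1)
    ((z.1, z.2 q.1) : X 2 2 r) q.2.2
  map_add' x y := by
    funext q
    have h1 : (((x + y).1, (x + y).2 q.1) : X 2 2 r) = (x.1, x.2 q.1) + (y.1, y.2 q.1) := rfl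
    rw [h1, map_add]
    rfl
  map_smul' c x := by
    funext q
    have h1 : (((c • x).1, (c • x).2 q.1) : X 2 2 r) = c • ((x.1, x.2 q.1) : X 2 2 r) := rfl
    rw [h1, map_smul]
    rfl

/-- vectors as functions on the indices -/
def Ec (c : Fin r → Wk C k) : Ix C k r → ZMod 2 := fun q => c q.2.2.1 q.1 q.2.1 q.2.2.2

theorem sum_ix (f : Ix C k r → ZMod 2) : ∑ q, f q = ∑ i, ∑ j, ∑ p, f (i, (j, p)) := by
  rw [Fintype.sum_prod_type]
  refine Finset.sum_congr rfl fun i _ => ?_
  rw [Fintype.sum_prod_type]

/-- the pairing of copy `i`, vector `j` -/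
theorem sum_LM (a c : Fin r → Wk C k) (z : Zz C r) : ∑ q, Ec c q * LM a z q =
    ∑ i, ∑ j, ∑ p : Fin r × Fin 2, (c p.1 i j p.2) *
      Lam (fun _ : Fin r => (1 : ZMod 2)) (fun x => a x i j) ((z.1, z.2 i) : X 2 2 r) p := by
  rw [sum_ix]
  rfl

theorem two_cases (c : Fin 2 → ZMod 2) (s : Fin 2) : c s + ∑ b, c b = c (s + 1) := by
  rw [Fin.sum_univ_two]
  have h : ∀ u v : ZMod 2, u + (u + v) = v ∧ v + (u + v) = u := by decide
  fin_cases s
  · exact (h (c 0) (c 1)).1
  · exact (h (c 0) (c 1)).2

open Classical in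
/-- the coefficient of `p^i_xs` -/
theorem eval_p (a c : Fin r → Wk C k) (i : C) (x : Fin r) (s : Fin 2) :
    ∑ q, Ec c q * LM a ((0 : Bm r), Pi.single i (Pi.single x (Pi.single s 1))) q =
      ∑ j, a x i j s * c x i j (s + 1) := by
  rw [sum_LM, Finset.sum_eq_single i]
  · refine Finset.sum_congr rfl fun j _ => ?_
    have h1 := coef_p (fun x => a x i j) (fun p => c p.1 i j p.2) x s
    have h2 := two_cases (fun b => c x i j b) s
    simp only at h1 h2
    rw [h2] at h1
    rw [← h1]
    refine Finset.sum_congr rfl fun p _ => ?_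
    simp only [Pi.single_eq_same]
  · intro i' _ hi'
    refine Finset.sum_eq_zero fun j _ => Finset.sum_eq_zero fun p _ => ?_
    have h1 : (((0 : Bm r), (Pi.single i (Pi.single x (Pi.single s 1)) : C → Fin r → V 2 2) i') :
        X 2 2 r) = 0 := by
      rw [Pi.single_eq_of_ne hi']
      rfl
    simp only at h1 ⊢
    rw [h1, map_zero, Pi.zero_apply, mul_zero]
  · intro h
    exact absurd (Finset.mem_univ _) h

/-- the coefficient of `B_xy` -/
theorem eval_B (a c : Fin r → Wk C k) (x y : Fin r) (hxy : (y : ℕ) < x) :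
    ∑ q, Ec c q * LM a ((tB x y : Bm r), 0) q =
      ∑ i, ∑ j, ∑ s, (a x i j s - a y i j s) * (c x i j s - c y i j s) := by
  rw [sum_LM]
  refine Finset.sum_congr rfl fun i _ => Finset.sum_congr rfl fun j _ => ?_
  exact coef_B (fun x => a x i j) (fun p => c p.1 i j p.2) x y hxy

/-- the pairing as a functional of the data -/
noncomputable def Ph (a c : Fin r → Wk C k) : Zz C r →ₗ[ZMod 2] ZMod 2 where
  toFun z := ∑ q, Ec c q * LM a z q
  map_add' x y := by
    simp only [map_add, Pi.add_apply, mul_add, Finset.sum_add_distrib]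
  map_smul' t x := by
    simp only [map_smul, Pi.smul_apply, smul_eq_mul, RingHom.id_apply, Finset.mul_sum]
    refine Finset.sum_congr rfl fun q _ => ?_
    ring

theorem tB_single (x : Fin r) (y : Fin (x : ℕ)) :
    (Pi.single x (Pi.single y 1) : ∀ i : Fin r, Fin (i : ℕ) → ZMod 2) =
      tB x ⟨y, y.2.trans x.2⟩ := by
  classical
  funext i j
  unfold tB
  by_cases hi : i = x
  · subst hi
    rw [Pi.single_eq_same]
    by_cases hj : j = y
    · subst hj
      rw [Pi.single_eq_same, if_pos ⟨rfl, rfl⟩]
    · rw [Pi.single_eq_of_ne hj, if_neg]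
      rintro ⟨-, h⟩
      exact hj (Fin.ext h)
  · rw [Pi.single_eq_of_ne hi, if_neg (fun h => hi h.1)]
    rfl

theorem pair_symm {a c a' c' : Wk C k} (h : Pair a c a' c') : Pair a' c' a c := by
  unfold Pair at h ⊢
  rw [← h]
  refine Finset.sum_congr rfl fun i _ => Finset.sum_congr rfl fun j _ =>
    Finset.sum_congr rfl fun s _ => ?_
  ring

theorem pair_self (a c : Wk C k) : Pair a c a c := by
  unfold Pair
  simp

/-- the annihilator of the image -/
theorem ann_iff (a c : Fin r → Wk C k) : (∀ z, ∑ q, Ec c q * LM a z q = 0) ↔ Orth a c := by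
  classical
  constructor
  · intro h
    refine ⟨fun x i s => ?_, fun x y => ?_⟩
    · rw [← eval_p a c i x s]
      exact h _
    · have key : ∀ x y : Fin r, (y : ℕ) < x → Pair (a x) (c x) (a y) (c y) := by
        intro x y hxy
        unfold Pair
        rw [← eval_B a c x y hxy]
        exact h _
      rcases lt_trichotomy (y : ℕ) x with h1 | h1 | h1
      · exact key x y h1
      · have : y = x := Fin.ext h1
        subst this
        exact pair_self _ _
      · exact pair_symm (key y x h1)
  · rintro ⟨h1, h2⟩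
    have hPh : Ph a c = 0 := by
      apply LinearMap.prod_ext
      · apply LinearMap.pi_ext'
        intro x
        apply LinearMap.pi_ext'
        intro y
        apply LinearMap.ext_ring
        change ∑ q, Ec c q * LM a ((Pi.single x (Pi.single y 1) : Bm r), 0) q = 0
        rw [tB_single, eval_B a c x _ y.2]
        exact h2 _ _
      · apply LinearMap.pi_ext'
        intro i
        apply LinearMap.pi_ext'
        intro x
        apply LinearMap.pi_ext'
        intro s
        apply LinearMap.ext_ring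
        change ∑ q, Ec c q * LM a ((0 : Bm r), Pi.single i (Pi.single x (Pi.single s 1))) q = 0
        rw [eval_p]
        exact h1 x i s
    intro z
    change Ph a c z = 0
    rw [hPh]
    rfl

/-- vectors and functions on the indices -/
def eqv : (Fin r → Wk C k) ≃ (Ix C k r → ZMod 2) where
  toFun c := Ec c
  invFun d := fun x i j b => d (i, (j, (x, b)))
  left_inv _ := rfl
  right_inv _ := rfl

theorem card_Ix : Nat.card (Ix C k r → ZMod 2) = 4 ^ (r * (k * Fintype.card C)) := by
  classical
  rw [Nat.card_eq_fintype_card, Fintype.card_fun, ZMod.card, Fintype.card_prod, Fintype.card_prod,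
    Fintype.card_prod, Fintype.card_fin, Fintype.card_fin, Fintype.card_fin]
  have h1 : Fintype.card C * (k * (r * 2)) = 2 * (r * (k * Fintype.card C)) := by ring
  rw [h1, pow_mul]
  norm_num

theorem card_Zz : Nat.card (Zz C r) = Nat.card (Bm r) * 4 ^ (r * Fintype.card C) := by
  classical
  rw [Nat.card_prod]
  congr 1
  rw [Nat.card_eq_fintype_card, Fintype.card_fun, Fintype.card_fun, card_V, Fintype.card_fin,
    ← pow_mul]
  norm_num

theorem ker_card (a : Fin r → Wk C k) :
    Nat.card (LinearMap.ker (LM a)) * 4 ^ (r * (k * Fintype.card C)) =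
      Nat.card (Bm r) * 4 ^ (r * Fintype.card C) * {c : Fin r → Wk C k | Orth a c}.ncard := by
  have h1 := card_ker (LM a)
  rw [card_Ix, card_Zz] at h1
  rw [h1]
  congr 1
  rw [← Nat.card_coe_set_eq]
  refine (Nat.card_congr (eqv.subtypeEquiv fun c => ?_)).symm
  exact (ann_iff a c).symm

/-- the right sides -/
def rhs (δ : Fin r → ZMod 2) (κ lam : ZMod 2) (a : Fin r → Wk C k) : Ix C k r → ZMod 2 :=
  fun q => Dl δ κ lam (fun x => a x q.1 q.2.1) q.2.2.1 q.2.2.2

theorem allSol_iff (δ : Fin r → ZMod 2) (κ lam : ZMod 2) (a : Fin r → Wk C k) (z : Zz C r) :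
    AllSol δ κ lam a z ↔ LM a z = rhs δ κ lam a := by
  have hc : ∀ u v : ZMod 2, u + v = 0 ↔ u = v := by decide
  have h1 : ∀ (i : C) (j : Fin k) (x : Fin r) (b : Fin 2), LM a z (i, (j, (x, b))) =
      ∑ y, sy z.1 x y * (a x i j b - a y i j b) + ∑ s, a x i j s * z.2 i x s +
        a x i j b * z.2 i x b := by
    intro i j x b
    change ∑ y, 1 * sy z.1 x y * (a x i j b - a y i j b) + ∑ s, a x i j s * z.2 i x s +
        a x i j b * z.2 i x b = _
    simp only [one_mul]
  constructor
  · intro h
    funext q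
    obtain ⟨i, j, x, b⟩ := q
    rw [h1]
    exact (hc _ _).1 (h i j x b)
  · intro h i j x b
    have h2 := congrFun h (i, (j, (x, b)))
    rw [h1] at h2
    exact (hc _ _).2 h2

/-- duality: a vector orthogonal to the annihilator is in the image -/
theorem mem_range {ι A : Type} [Fintype ι] [AddCommGroup A] [Module (ZMod 2) A]
    (f : A →ₗ[ZMod 2] (ι → ZMod 2)) (e : ι → ZMod 2)
    (h : ∀ c : ι → ZMod 2, (∀ x, ∑ i, c i * f x i = 0) → ∑ i, c i * e i = 0) :
    ∃ z, f z = e := by
  classical
  by_contra hne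
  have h1 : e ∉ LinearMap.range f := fun h2 => hne h2
  obtain ⟨g, hg1, hg2⟩ := Submodule.exists_dual_map_eq_bot_of_notMem h1 inferInstance
  have h3 : ∀ v : ι → ZMod 2, g v = ∑ i, g (Pi.single i 1) * v i := by
    intro v
    conv_lhs => rw [← Finset.univ_sum_single v]
    rw [map_sum]
    refine Finset.sum_congr rfl fun i _ => ?_
    have h4 : (Pi.single i (v i) : ι → ZMod 2) = v i • Pi.single i 1 := by
      rw [← Pi.single_smul, smul_eq_mul, mul_one]
    rw [h4, map_smul, smul_eq_mul, mul_comm]
  apply hg1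
  rw [h3]
  apply h
  intro x
  rw [← h3]
  have h5 : g (f x) ∈ (LinearMap.range f).map g := ⟨f x, ⟨x, rfl⟩, rfl⟩
  rw [hg2] at h5
  exact h5

end

/-- Module CT. -/
theorem t_CT : S_CT := by
  intro C _ k r a δ κ lam
  classical
  have hset : {z : Bm r × (C → Fin r → V 2 2) | AllSol δ κ lam a z} =
      {z : Zz C r | LM a z = rhs δ κ lam a} := by
    ext z
    exact allSol_iff δ κ lam a z
  rw [hset]
  -- a coset of the kernel, if it is not empty
  have hco : ∀ z0 : Zz C r, LM a z0 = rhs δ κ lam a →
      {z : Zz C r | LM a z = rhs δ κ lam a}.ncard = Nat.card (LinearMap.ker (LM a)) := by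
    intro z0 hz0
    rw [← Nat.card_coe_set_eq]
    refine Nat.card_congr
      { toFun := fun z => ⟨z.1 - z0, by
          rw [LinearMap.mem_ker, map_sub, hz0]
          exact sub_eq_zero.mpr z.2⟩
        invFun := fun w => ⟨w.1 + z0, by
          change LM a (w.1 + z0) = _
          rw [map_add, LinearMap.mem_ker.mp w.2, zero_add, hz0]⟩
        left_inv := fun z => Subtype.ext (sub_add_cancel _ _)
        right_inv := fun w => Subtype.ext (add_sub_cancel_right _ _) }
  constructor
  · rcases Set.eq_empty_or_nonempty {z : Zz C r | LM a z = rhs δ κ lam a} with h0 | ⟨z0, hz0⟩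
    · rw [h0, Set.ncard_empty, zero_mul]
      exact Nat.zero_le _
    · rw [hco z0 hz0, ker_card]
  · intro h
    obtain ⟨z0, hz0⟩ := mem_range (LM a) (rhs δ κ lam a) (by
      intro c hc
      have h1 : Orth a (eqv.symm c) := by
        rw [← ann_iff]
        exact hc
      have h2 := h _ h1
      rw [sum_ix]
      rw [← h2]
      refine Finset.sum_congr rfl fun i _ => Finset.sum_congr rfl fun j _ => ?_
      rw [Fintype.sum_prod_type]
      rfl)
    rw [hco z0 hz0, ker_card]

end Pool.Agent.D0H6.OD
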