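import Pool.Agent.D0H99.OD.Stm5
import Pool.Agent.D0H6.OD.Ct

/-!
Module CT2 of project OD, part 5 (helper99): counting by duality with a fixed small block.

Author: helper6.
-/

set_option autoImplicit false

namespace Pool.Agent.D0H6.OD

open Finset Pool.Agent.D0H99.RM Pool.Agent.D0H99.OD
open Pool.Agent.D0H52.RM (Lam card_ker card_V)
open Pool.Agent.D0H52.OD.Mom2 (coef_p coef_B tB)

local instance : Fact (Nat.Prime 2) := ⟨Nat.prime_two⟩

section
variable {C : Type} [Fintype C] {k r : ℕ}

/-- the data without a small block -/
def Wd (C : Type) (r s : ℕ) : Submodule (ZMod 2) (Zz C r) where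
  carrier := {z | z.1 ∈ BS s (0 : Bm r) ∧ ∀ i, z.2 i ∈ PS s (0 : Fin r → V 2 2)}
  add_mem' := by
    rintro x y ⟨hx, hx'⟩ ⟨hy, hy'⟩
    refine ⟨fun i hi => ?_, fun c i hi => ?_⟩
    · change x.1 i + y.1 i = 0
      rw [hx i hi, hy i hi]
      exact add_zero _
    · change x.2 c i + y.2 c i = 0
      rw [hx' c i hi, hy' c i hi]
      exact add_zero _
  zero_mem' := ⟨fun i _ => rfl, fun c i _ => rfl⟩
  smul_mem' := by
    rintro t x ⟨hx, hx'⟩
    refine ⟨fun i hi => ?_, fun c i hi => ?_⟩
    · change t • x.1 i = 0
      rw [hx i hi]
      exact smul_zero _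
    · change t • x.2 c i = 0
      rw [hx' c i hi]
      exact smul_zero _

/-- the small block replaced by zero -/
def mask (C : Type) (r s : ℕ) : Zz C r →ₗ[ZMod 2] Zz C r where
  toFun z := (fun i => if (i : ℕ) < s then 0 else z.1 i,
    fun c i => if (i : ℕ) < s then 0 else z.2 c i)
  map_add' x y := by
    refine Prod.ext ?_ ?_
    · funext i
      change (if (i : ℕ) < s then 0 else x.1 i + y.1 i) =
        (if (i : ℕ) < s then 0 else x.1 i) + (if (i : ℕ) < s then 0 else y.1 i)
      split_ifs
      · exact (add_zero _).symm
      · rfl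
    · funext c i
      change (if (i : ℕ) < s then 0 else x.2 c i + y.2 c i) =
        (if (i : ℕ) < s then 0 else x.2 c i) + (if (i : ℕ) < s then 0 else y.2 c i)
      split_ifs
      · exact (add_zero _).symm
      · rfl
  map_smul' t x := by
    refine Prod.ext ?_ ?_
    · funext i
      change (if (i : ℕ) < s then 0 else t • x.1 i) = t • (if (i : ℕ) < s then 0 else x.1 i)
      split_ifs
      · exact (smul_zero _).symm
      · rfl
    · funext c i
      change (if (i : ℕ) < s then 0 else t • x.2 c i) = t • (if (i : ℕ) < s then 0 else x.2 c i)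
      split_ifs
      · exact (smul_zero _).symm
      · rfl

theorem mask_mem (s : ℕ) (z : Zz C r) : mask C r s z ∈ Wd C r s := by
  refine ⟨fun i hi => ?_, fun c i hi => ?_⟩
  · change (if (i : ℕ) < s then 0 else z.1 i) = 0
    rw [if_pos hi]
  · change (if (i : ℕ) < s then 0 else z.2 c i) = 0
    rw [if_pos hi]

theorem mask_eq {s : ℕ} {z : Zz C r} (hz : z ∈ Wd C r s) : mask C r s z = z := by
  obtain ⟨h1, h2⟩ := hz
  refine Prod.ext ?_ ?_
  · funext i
    change (if (i : ℕ) < s then 0 else z.1 i) = z.1 i
    split_ifs with h
    · exact (h1 i h).symm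
    · rfl
  · funext c i
    change (if (i : ℕ) < s then 0 else z.2 c i) = z.2 c i
    split_ifs with h
    · exact (h2 c i h).symm
    · rfl

theorem single_mem_p (s : ℕ) (i : C) (x : Fin r) (v : V 2 2) [DecidableEq C] (hx : s ≤ (x : ℕ)) :
    (((0 : Bm r), Pi.single i (Pi.single x v)) : Zz C r) ∈ Wd C r s := by
  refine ⟨fun y _ => rfl, fun c y hy => ?_⟩
  have hyx : y ≠ x := by
    rintro rfl
    omega
  change (Pi.single i (Pi.single x v) : C → Fin r → V 2 2) c y = 0
  by_cases hc : c = i
  · subst hc
    rw [Pi.single_eq_same, Pi.single_eq_of_ne hyx]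
  · rw [Pi.single_eq_of_ne hc]
    rfl

theorem tB_mem (s : ℕ) (x y : Fin r) (hx : s ≤ (x : ℕ)) :
    ((tB x y, 0) : Zz C r) ∈ Wd C r s := by
  classical
  refine ⟨fun i hi => ?_, fun c y _ => rfl⟩
  change tB x y i = 0
  have hix : i ≠ x := by
    rintro rfl
    omega
  funext j
  unfold tB
  rw [if_neg (fun h => hix h.1)]
  rfl

/-- the annihilator of the image of the data without a small block -/
theorem ann_iff2 (s : ℕ) (a c : Fin r → Wk C k) :
    (∀ z ∈ Wd C r s, ∑ q, Ec c q * LM a z q = 0) ↔ Orth2 s a c := by
  classical
  constructor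
  · intro h
    have key : ∀ x y : Fin r, s ≤ (x : ℕ) → (y : ℕ) < x → Pair (a x) (c x) (a y) (c y) := by
      intro x y hx hxy
      unfold Pair
      rw [← eval_B a c x y hxy]
      exact h _ (tB_mem s x y hx)
    refine ⟨fun x hx i t => ?_, fun x y hx => ?_⟩
    · rw [← eval_p a c i x t]
      exact h _ (single_mem_p s i x _ hx)
    · rcases lt_trichotomy (y : ℕ) x with h1 | h1 | h1
      · exact key x y hx h1
      · have : y = x := Fin.ext h1
        subst this
        exact pair_self _ _
      · exact pair_symm (key y x (by omega) h1)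
  · rintro ⟨h1, h2⟩
    have hPh : Ph a c ∘ₗ mask C r s = 0 := by
      apply LinearMap.prod_ext
      · apply LinearMap.pi_ext'
        intro x
        apply LinearMap.pi_ext'
        intro y
        apply LinearMap.ext_ring
        change Ph a c (mask C r s ((Pi.single x (Pi.single y 1) : Bm r), 0)) = 0
        rw [tB_single]
        by_cases hx : s ≤ (x : ℕ)
        · rw [mask_eq (tB_mem s x _ hx)]
          change ∑ q, Ec c q * LM a ((tB x ⟨y, y.2.trans x.2⟩ : Bm r), 0) q = 0
          rw [eval_B a c x _ y.2]
          exact h2 _ _ hx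
        · have h3 : mask C r s ((tB x ⟨y, y.2.trans x.2⟩, 0) : Zz C r) = 0 := by
            refine Prod.ext ?_ ?_
            · funext i
              change (if (i : ℕ) < s then 0 else (tB x ⟨y, y.2.trans x.2⟩ : Bm r) i) = 0
              split_ifs with hi
              · rfl
              · have hix : i ≠ x := by
                  rintro rfl
                  omega
                funext j
                unfold tB
                rw [if_neg (fun h => hix h.1)]
                rfl
            · funext c i
              change (if (i : ℕ) < s then (0 : V 2 2) else 0) = 0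
              split_ifs <;> rfl
          rw [h3, map_zero]
      · apply LinearMap.pi_ext'
        intro i
        apply LinearMap.pi_ext'
        intro x
        apply LinearMap.pi_ext'
        intro t
        apply LinearMap.ext_ring
        change Ph a c (mask C r s ((0 : Bm r), Pi.single i (Pi.single x (Pi.single t 1)))) = 0
        by_cases hx : s ≤ (x : ℕ)
        · rw [mask_eq (single_mem_p s i x _ hx)]
          change ∑ q, Ec c q * LM a ((0 : Bm r), Pi.single i (Pi.single x (Pi.single t 1))) q = 0
          rw [eval_p]
          exact h1 x hx i t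
        · have h3 : mask C r s (((0 : Bm r), Pi.single i (Pi.single x (Pi.single t 1))) :
              Zz C r) = 0 := by
            refine Prod.ext ?_ ?_
            · funext j
              change (if (j : ℕ) < s then (0 : Fin (j : ℕ) → ZMod 2) else 0) = 0
              split_ifs <;> rfl
            · funext c j
              change (if (j : ℕ) < s then (0 : V 2 2) else
                (Pi.single i (Pi.single x (Pi.single t 1)) : C → Fin r → V 2 2) c j) = 0
              split_ifs with hj
              · rfl
              · have hjx : j ≠ x := by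
                  rintro rfl
                  omega
                by_cases hc : c = i
                · subst hc
                  rw [Pi.single_eq_same, Pi.single_eq_of_ne hjx]
                · rw [Pi.single_eq_of_ne hc]
                  rfl
          rw [h3, map_zero]
    intro z hz
    change Ph a c z = 0
    rw [← mask_eq hz, ← LinearMap.comp_apply, hPh]
    rfl

/-- the data with the small block `β`, `π` -/
theorem card_Wd (s : ℕ) (β : Bm r) (π : Fin r → V 2 2) : Nat.card (Wd C r s) =
    (BS s β).ncard * (PS s π).ncard ^ Fintype.card C := by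
  classical
  have e : Wd C r s ≃ (BS s β) × (C → PS s π) :=
    { toFun := fun w => (⟨w.1.1 + β, fun i hi => by
          change w.1.1 i + β i = β i
          rw [w.2.1 i hi]
          exact zero_add _⟩, fun c => ⟨w.1.2 c + π, fun i hi => by
          change w.1.2 c i + π i = π i
          rw [w.2.2 c i hi]
          exact zero_add _⟩)
      invFun := fun u => ⟨(u.1.1 - β, fun c => (u.2 c).1 - π), fun i hi => by
          change u.1.1 i - β i = 0
          rw [u.1.2 i hi]
          exact sub_self _, fun c i hi => by
          change (u.2 c).1 i - π i = 0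
          rw [(u.2 c).2 i hi]
          exact sub_self _⟩
      left_inv := fun w => by
        refine Subtype.ext (Prod.ext ?_ ?_)
        · exact add_sub_cancel_right _ _
        · funext c
          exact add_sub_cancel_right _ _
      right_inv := fun u => by
        refine Prod.ext (Subtype.ext ?_) ?_
        · exact sub_add_cancel _ _
        · funext c
          exact Subtype.ext (sub_add_cancel _ _) }
  rw [Nat.card_congr e, Nat.card_prod, Nat.card_coe_set_eq, Nat.card_fun, Nat.card_coe_set_eq,
    Nat.card_eq_fintype_card (α := C)]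

theorem ker_card2 (s : ℕ) (a : Fin r → Wk C k) (β : Bm r) (π : Fin r → V 2 2) :
    Nat.card (LinearMap.ker ((LM a).domRestrict (Wd C r s))) * 4 ^ (r * (k * Fintype.card C)) =
      (BS s β).ncard * (PS s π).ncard ^ Fintype.card C *
        {c : Fin r → Wk C k | Orth2 s a c}.ncard := by
  have h1 := card_ker ((LM a).domRestrict (Wd C r s))
  rw [card_Ix, card_Wd s β π] at h1
  rw [h1]
  congr 1
  rw [← Nat.card_coe_set_eq]
  refine (Nat.card_congr (eqv.subtypeEquiv fun c => ?_)).symm
  rw [Set.mem_setOf_eq, ← ann_iff2]
  constructor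
  · intro h x
    exact h x.1 x.2
  · intro h z hz
    exact h ⟨z, hz⟩

end

/-- Module CT2. -/
theorem t_CT2 : S_CT2 := by
  intro C _ k r s _ a δ κ lam β π
  classical
  set z0 : Zz C r := (β, fun _ => π) with hz0d
  have hset : {z : Bm r × (C → Fin r → V 2 2) | AllSol δ κ lam a z ∧ z.1 ∈ BS s β ∧
      ∀ i, z.2 i ∈ PS s π} = {z : Zz C r | LM a z = rhs δ κ lam a ∧ z - z0 ∈ Wd C r s} := by
    ext z
    rw [Set.mem_setOf_eq, Set.mem_setOf_eq, allSol_iff δ κ lam a z]
    refine and_congr_right fun _ => and_congr ?_ ?_
    · refine forall_congr' fun i => forall_congr' fun _ => ?_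
      change z.1 i = β i ↔ z.1 i - β i = 0
      exact sub_eq_zero.symm
    · refine forall_congr' fun c => forall_congr' fun i => forall_congr' fun _ => ?_
      change z.2 c i = π i ↔ z.2 c i - π i = 0
      exact sub_eq_zero.symm
  rw [hset]
  -- a coset of the kernel, if it is not empty
  have hco : ∀ z1 : Zz C r, LM a z1 = rhs δ κ lam a → z1 - z0 ∈ Wd C r s →
      {z : Zz C r | LM a z = rhs δ κ lam a ∧ z - z0 ∈ Wd C r s}.ncard =
        Nat.card (LinearMap.ker ((LM a).domRestrict (Wd C r s))) := by
    intro z1 hz1 hz1'
    rw [← Nat.card_coe_set_eq]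
    refine Nat.card_congr
      { toFun := fun z => ⟨⟨z.1 - z1, by
            have h3 := (Wd C r s).sub_mem z.2.2 hz1'
            rwa [sub_sub_sub_cancel_right] at h3⟩, by
          rw [LinearMap.mem_ker, LinearMap.domRestrict_apply]
          change LM a (z.1 - z1) = 0
          rw [map_sub, hz1]
          exact sub_eq_zero.mpr z.2.1⟩
        invFun := fun w => ⟨w.1.1 + z1, by
            change LM a (w.1.1 + z1) = _
            have h4 := LinearMap.mem_ker.mp w.2
            rw [LinearMap.domRestrict_apply] at h4
            rw [map_add, h4, zero_add, hz1], by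
            have h3 := (Wd C r s).add_mem w.1.2 hz1'
            rwa [← add_sub_assoc] at h3⟩
        left_inv := fun z => Subtype.ext (sub_add_cancel _ _)
        right_inv := fun w => Subtype.ext (Subtype.ext (add_sub_cancel_right _ _)) }
  constructor
  · rcases Set.eq_empty_or_nonempty
      {z : Zz C r | LM a z = rhs δ κ lam a ∧ z - z0 ∈ Wd C r s} with h0 | ⟨z1, hz1⟩
    · rw [h0, Set.ncard_empty, zero_mul]
      exact Nat.zero_le _
    · rw [hco z1 hz1.1 hz1.2, ker_card2 s a β π]
  · intro h
    obtain ⟨w, hw⟩ := mem_range ((LM a).domRestrict (Wd C r s)) (rhs δ κ lam a - LM a z0) (by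
      intro c hc
      have h1 : Orth2 s a (eqv.symm c) := by
        rw [← ann_iff2]
        intro z hz
        exact hc ⟨z, hz⟩
      obtain ⟨h2, h3⟩ := h _ h1
      have h4 : ∑ q, c q * LM a z0 q = 0 := (ann_iff a (eqv.symm c)).2 h2 z0
      have h5 : ∑ q, c q * rhs δ κ lam a q = 0 := by
        rw [sum_ix, ← h3]
        refine Finset.sum_congr rfl fun i _ => Finset.sum_congr rfl fun j _ => ?_
        rw [Fintype.sum_prod_type]
        rfl
      simp only [Pi.sub_apply, mul_sub, Finset.sum_sub_distrib]
      rw [h4, h5, sub_zero])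
    have h6 : LM a (w.1 + z0) = rhs δ κ lam a := by
      rw [LinearMap.domRestrict_apply] at hw
      rw [map_add, hw, sub_add_cancel]
    rw [hco (w.1 + z0) h6 (by rw [add_sub_cancel_right]; exact w.2), ker_card2 s a β π]

end Pool.Agent.D0H6.OD
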